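import Pool.Agent.helper65.SV.SpecE

/-!
# Project sv: (MP_b5a345_ag), module PNU: all large `E`
-/

set_option autoImplicit false

namespace Pool.Agent.SV

open Module

theorem PNU_le {X : Type*} [Fintype X] (w : X → ℕ) (q N : ℕ) (hw : ∀ x, w x = q ∨ w x = q + 1)
    (hs : ∑ x, w x ≤ Fintype.card X * N) (x : X) : w x ≤ N := by
  by_contra hcon
  push Not at hcon
  have hq : N ≤ q := by
    rcases hw x with h | h <;> omega
  have h1 : ∑ _y : X, N < ∑ y, w y := by
    refine Finset.sum_lt_sum (fun y _ => ?_) ⟨x, Finset.mem_univ x, hcon⟩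
    rcases hw y with h | h <;> omega
  rw [Finset.sum_const, Finset.card_univ, smul_eq_mul] at h1
  omega

theorem PNU_ge {X : Type*} [Fintype X] (w : X → ℕ) (q N : ℕ) (hw : ∀ x, w x = q ∨ w x = q + 1)
    (hs : Fintype.card X * N ≤ ∑ x, w x) (x : X) : N ≤ w x := by
  by_contra hcon
  push Not at hcon
  have hq : q + 1 ≤ N := by
    rcases hw x with h | h <;> omega
  have h1 : ∑ y, w y < ∑ _y : X, N := by
    refine Finset.sum_lt_sum (fun y _ => ?_) ⟨x, Finset.mem_univ x, hcon⟩
    rcases hw y with h | h <;> omega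
  rw [Finset.sum_const, Finset.card_univ, smul_eq_mul] at h1
  omega

theorem PNU (hPC1 : PC1_stmt) (hPC2 : PC2_stmt) (hPNB : PNB_stmt) (hPRD : PRD_stmt) : PNU_stmt := by
  intro K _ _ n hK hn
  have : Nonempty K := Fintype.card_pos_iff.1 (by omega)
  have hcfg : ∀ r₀ : ℕ, ∃ (r : ℕ) (c γ : Fin r → Cell n) (q : ℕ),
      (∀ l, γ l = 0 ∨ (2 ≤ hammingNorm (γ l) ∧ lamE (γ l) ≠ 0)) ∧
      r % Fintype.card (Cell n) = r₀ % Fintype.card (Cell n) ∧
      ∀ x, wt c γ x = q ∨ wt c γ x = q + 1 := by
    intro r₀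
    by_cases h : (∃ i, 2 ≤ n i) ∨ 5 ≤ Fintype.card K
    · exact hPC1 K n hK hn h r₀
    · push Not at h
      refine hPC2 K n (by omega) (fun i => ?_) r₀
      have h1 := h.1 i
      have h2 := hn i
      omega
  choose R c γ q hadm hmod hwt using hcfg
  obtain ⟨v, hv⟩ : ∃ v : ℕ, v = Fintype.card (Cell n) := ⟨_, rfl⟩
  obtain ⟨D, hD⟩ : ∃ D : ℕ, D = ∑ i, n i + 2 := ⟨_, rfl⟩
  have hD1 : ∑ i, n i + 1 = D - 1 := by omega
  have hDpos : 0 < D := by omega
  have hvpos : 0 < v := by
    rw [hv]
    exact Fintype.card_pos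
  obtain ⟨B, hB⟩ : ∃ B : ℕ, B = (Finset.range v).sup R := ⟨_, rfl⟩
  refine ⟨D * (B + v * (2 * B + 1)), fun E hE r hr => ?_⟩
  rw [← hv, ← hD, hD1] at hr
  rw [← hv, ← hD]
  -- the residue
  have hRB : R (r % v) ≤ B := by
    rw [hB]
    exact Finset.le_sup (f := R) (Finset.mem_range.2 (Nat.mod_lt _ hvpos))
  have hrbig : B + v * (2 * B + 1) ≤ r := by
    have h1 : D * (B + v * (2 * B + 1)) ≤ v * E :=
      hE.trans (Nat.le_mul_of_pos_left E hvpos)
    have h2 : B + v * (2 * B + 1) ≤ v * E / D := by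
      rw [Nat.le_div_iff_mul_le hDpos, mul_comm]
      exact h1
    rcases hr with h | h
    · rw [h]
      exact h2
    · rw [h]
      exact h2.trans (Nat.div_le_div_right (Nat.le_add_right _ _))
  obtain ⟨s, hs⟩ : ∃ s : ℕ, s = r % v := ⟨_, rfl⟩
  rw [← hs] at hRB
  have hmod' : R s % v = r % v := by
    have h1 := hmod s
    rw [← hv] at h1
    rw [h1, hs, Nat.mod_mod]
  have hRr : R s ≤ r := by omega
  obtain ⟨m, hm⟩ : ∃ m : ℕ, r = m * v + R s := by
    have h1 : v ∣ r - R s := (Nat.modEq_iff_dvd' hRr).1 hmod'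
    obtain ⟨m, hm⟩ := h1
    refine ⟨m, ?_⟩
    rw [mul_comm m v, ← hm]
    omega
  have hm2 : 2 * R s < m := by
    by_contra hcon
    push Not at hcon
    have h1 : m * v ≤ (2 * B) * v := Nat.mul_le_mul_right v (by omega)
    have h2 : v * (2 * B + 1) = (2 * B) * v + v := by ring
    omega
  obtain ⟨y, t, hyt⟩ := hPRD K n (R s) m E (c s) (γ s) (hadm s) hm2
  rw [← hD] at hyt
  have hsum : ∑ x, wt (c s) (γ s) x = R s * D := by
    rw [hD]
    exact (hPNB K n).2.2.1 (R s) (c s) (γ s)
  have hfin : ∑ x : Cell n, (E - m * D - wt (c s) (γ s) x) ≤ v * E - r * D := by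
    have hrD : r * D = v * (m * D) + R s * D := by
      rw [hm]
      ring
    rcases hr with h | h
    · -- floor
      have h1 : r * D ≤ v * E := by
        rw [h]
        exact Nat.div_mul_le_self _ _
      have h2 : v * (m * D) ≤ v * E := by omega
      have h3 : m * D ≤ E := Nat.le_of_mul_le_mul_left h2 hvpos
      obtain ⟨N, hN⟩ : ∃ N : ℕ, E = m * D + N := ⟨E - m * D, by omega⟩
      have h4 : v * E = v * (m * D) + v * N := by
        rw [hN]
        ring
      have h5 : ∑ x, wt (c s) (γ s) x ≤ Fintype.card (Cell n) * N := by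
        rw [hsum, ← hv]
        omega
      have h6 := PNU_le _ (q s) N (hwt s) h5
      have h7 : E - m * D = N := by omega
      rw [h7]
      have h8 : ∑ x : Cell n, (N - wt (c s) (γ s) x) + ∑ x, wt (c s) (γ s) x = v * N := by
        rw [← Finset.sum_add_distrib]
        calc ∑ x : Cell n, (N - wt (c s) (γ s) x + wt (c s) (γ s) x) = ∑ _x : Cell n, N :=
              Finset.sum_congr rfl fun x _ => Nat.sub_add_cancel (h6 x)
          _ = v * N := by
              rw [Finset.sum_const, Finset.card_univ, smul_eq_mul, hv]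
      omega
    · -- ceiling
      have h1 : v * E ≤ r * D := by
        have h2 : v * E + (D - 1) < (r + 1) * D := by
          rw [h]
          have h3 := Nat.lt_div_mul_add hDpos (a := v * E + (D - 1))
          calc v * E + (D - 1) < (v * E + (D - 1)) / D * D + D := h3
            _ = _ := by ring
        have h4 : (r + 1) * D = r * D + D := by ring
        omega
      have h5 : ∀ x, E - m * D ≤ wt (c s) (γ s) x := by
        rcases le_total (m * D) E with h6 | h6
        · obtain ⟨N, hN⟩ : ∃ N : ℕ, E = m * D + N := ⟨E - m * D, by omega⟩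
          have h7 : v * E = v * (m * D) + v * N := by
            rw [hN]
            ring
          have h8 : E - m * D = N := by omega
          rw [h8]
          refine PNU_ge _ (q s) N (hwt s) ?_
          rw [hsum, ← hv]
          omega
        · intro x
          have h7 : E - m * D = 0 := by omega
          omega
      have h6 : ∑ x : Cell n, (E - m * D - wt (c s) (γ s) x) = 0 :=
        Finset.sum_eq_zero fun x _ => Nat.sub_eq_zero_of_le (h5 x)
      rw [h6]
      exact Nat.zero_le _
  rw [hv] at hm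
  subst hm
  exact ⟨y, t, hyt.trans hfin⟩

end Pool.Agent.SV
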