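import Pool.Agent.helper80.SV.Spec

/-!
# Project sv: (MP_b5a345_ag), module TRC: the trace
-/

set_option autoImplicit false

namespace Pool.Agent.SV

open MvPolynomial Module

theorem TRC (hONE : ONE_stmt) (hRKB : RKB_stmt) (hSMP : SMP_stmt) (hHOM : HOM_stmt) : TRC_stmt := by
  intro ι κ _ _ _ _ c z d u δ hcol hdeg hdim hbig
  obtain ⟨A, hA⟩ : ∃ A : Finset ι, A = Finset.univ.erase z := ⟨_, rfl⟩
  rw [← hA] at hdim hbig ⊢
  have hcol' : ∀ k, ∃ i ∈ A, c i = k := by
    intro k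
    obtain ⟨i, hi, hk⟩ := hcol k
    exact ⟨i, by rw [hA]; exact Finset.mem_erase.2 ⟨hi, Finset.mem_univ i⟩, hk⟩
  -- the minimal dimension
  have hdmin : dmin (Phi1 c A d) 0 u = δ := by
    rcases Nat.eq_zero_or_pos u with hu | hu
    · subst hu
      have h1 := (hRKB (Phi1 c A d)).1
      rw [h1]
      omega
    · have h1 := (hONE c A d hcol' hdeg u).1 hu (by
        have h2 : u * Dk c A d = (u - 1) * Dk c A d + Dk c A d := by
          obtain ⟨v, rfl⟩ : ∃ v, u = v + 1 := ⟨u - 1, by omega⟩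
          simp only [Nat.add_sub_cancel]
          ring
        omega)
      omega
  obtain ⟨x, y, hxy⟩ := exists_dmin (Phi1 c A d) 0 u
  rw [hdmin] at hxy
  obtain ⟨Q, hQ⟩ : ∃ Q : Submodule ℂ (MvPolynomial ι ℂ),
      Q = (Ker (Phi1 c A d) x y).map (Sec c A d).subtype := ⟨_, rfl⟩
  have hQle : Q ≤ Sec c A d := by
    rw [hQ]
    exact Submodule.map_subtype_le _ _
  haveI : Module.Finite ℂ Q := Submodule.finiteDimensional_of_le hQle
  have hQrank : finrank ℂ Q = δ := by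
    rw [hQ, Submodule.finrank_map_subtype_eq]
    exact hxy
  obtain ⟨p, hp⟩ := hSMP A Q (by
    intro g hg h0
    refine MvPolynomial.funext fun w => ?_
    rw [map_zero, ← (hHOM c A d g (hQle hg)).2.2.2.2 w]
    exact h0 w) δ
  rw [hQrank, Nat.sub_self] at hp
  have hbot : (Q ⊓ ⨅ j, LinearMap.ker (evL (cut A (p j)))) = ⊥ := by
    haveI : Module.Finite ℂ ↥(Q ⊓ ⨅ j, LinearMap.ker (evL (cut A (p j)))) :=
      Submodule.finiteDimensional_of_le (inf_le_left : _ ≤ Q)
    exact Submodule.finrank_eq_zero.1 (Nat.le_zero.1 hp)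
  refine ⟨y, p, fun g hg h1 h2 => ?_⟩
  have hmem : g ∈ (Q ⊓ ⨅ j, LinearMap.ker (evL (cut A (p j)))) := by
    refine Submodule.mem_inf.2 ⟨?_, ?_⟩
    · rw [hQ, Submodule.mem_map]
      refine ⟨⟨g, hg⟩, ?_, rfl⟩
      rw [mem_Ker]
      refine ⟨fun i => i.elim0, fun i => ?_⟩
      have h3 := h1 i
      simp only [Phi1]
      exact h3
    · rw [Submodule.mem_iInf]
      intro j
      rw [LinearMap.mem_ker, evL_apply]
      exact h2 j
  rw [hbot] at hmem
  exact (Submodule.mem_bot ℂ).1 hmem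

end Pool.Agent.SV
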